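import Mathlib

/-!
helper88 (project MP_28250c_PP, block E): analytic lemmas: the largest term of the exponential series, the lower bound for
`a_k = ∑ q, β^q C(k,q)/(q+1)!`.
-/

set_option autoImplicit false

namespace PPh

open Finset

/-- The terms of the exponential series increase up to the index `x`. -/
theorem term_mono {x : ℝ} (hx : 0 ≤ x) {i j : ℕ} (hij : i ≤ j) (hj : (j : ℝ) ≤ x) :
    x ^ i / (i.factorial : ℝ) ≤ x ^ j / (j.factorial : ℝ) := by
  induction j, hij using Nat.le_induction with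
  | base => exact le_rfl
  | succ j hij ih =>
    have hj' : (j : ℝ) ≤ x := by
      push_cast at hj
      linarith
    refine (ih hj').trans ?_
    have h1 : (0 : ℝ) < j.factorial := by exact_mod_cast j.factorial_pos
    have h2 : (0 : ℝ) < (j : ℝ) + 1 := by positivity
    rw [Nat.factorial_succ, pow_succ, Nat.cast_mul, div_le_div_iff₀ h1 (by positivity)]
    push_cast at hj ⊢
    have h3 : 0 ≤ x ^ j * j.factorial := by positivity
    nlinarith

/-- The terms of the exponential series decrease after the index `x`. -/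
theorem term_anti {x : ℝ} (hx : 0 ≤ x) {i j : ℕ} (hij : i ≤ j) (hi : x ≤ (i : ℝ) + 1) :
    x ^ j / (j.factorial : ℝ) ≤ x ^ i / (i.factorial : ℝ) := by
  induction j, hij using Nat.le_induction with
  | base => exact le_rfl
  | succ j hij ih =>
    refine le_trans ?_ ih
    have h1 : (0 : ℝ) < j.factorial := by exact_mod_cast j.factorial_pos
    have h2 : (0 : ℝ) < (j : ℝ) + 1 := by positivity
    have h4 : x ≤ (j : ℝ) + 1 := by
      have : (i : ℝ) ≤ j := by exact_mod_cast hij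
      linarith
    rw [Nat.factorial_succ, pow_succ, Nat.cast_mul, div_le_div_iff₀ (by positivity) h1]
    push_cast
    have h3 : 0 ≤ x ^ j * j.factorial := by positivity
    nlinarith

theorem term_le {x : ℝ} (hx : 0 ≤ x) (i : ℕ) :
    x ^ i / (i.factorial : ℝ) ≤ x ^ ⌊x⌋₊ / ((⌊x⌋₊).factorial : ℝ) := by
  rcases le_total i ⌊x⌋₊ with h | h
  · exact term_mono hx h (Nat.floor_le hx)
  · exact term_anti hx h (Nat.lt_floor_add_one x).le

/-- The largest term of the exponential series. -/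
theorem exp_le_term {x : ℝ} (hx : 0 ≤ x) : Real.exp x ≤ (2 * x + 4) * (x ^ ⌊x⌋₊ / ((⌊x⌋₊).factorial : ℝ)) := by
  set t := x ^ ⌊x⌋₊ / ((⌊x⌋₊).factorial : ℝ) with ht
  set m := ⌊2 * x⌋₊ + 2 with hm
  have hm1 : 2 * x + 1 ≤ m := by
    have := Nat.lt_floor_add_one (2 * x)
    rw [hm]
    push_cast
    linarith
  have hm2 : (m : ℝ) ≤ 2 * x + 2 := by
    have := Nat.floor_le (show 0 ≤ 2 * x by linarith)
    rw [hm]
    push_cast
    linarith
  have hsum : Summable fun n : ℕ => x ^ n / (n.factorial : ℝ) := Real.summable_pow_div_factorial x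
  have hexp : Real.exp x = ∑' n : ℕ, x ^ n / (n.factorial : ℝ) := by
    rw [Real.exp_eq_exp_ℝ, NormedSpace.exp_eq_tsum_div]
  rw [hexp, ← hsum.sum_add_tsum_nat_add m]
  have h1 : ∑ i ∈ range m, x ^ i / (i.factorial : ℝ) ≤ m * t := by
    refine (sum_le_card_nsmul _ _ t fun i _ => term_le hx i).trans ?_
    rw [card_range, nsmul_eq_mul]
  have hgeo : ∀ i : ℕ, x ^ (i + m) / ((i + m).factorial : ℝ) ≤ t * (1 / 2) ^ i := by
    intro i
    induction i with
    | zero =>
      rw [Nat.zero_add, pow_zero, mul_one]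
      exact term_le hx m
    | succ i ih =>
      have h2 : x ^ (i + 1 + m) / ((i + 1 + m).factorial : ℝ) ≤ x ^ (i + m) / ((i + m).factorial : ℝ) * (1 / 2) := by
        have h3 : i + 1 + m = (i + m) + 1 := by ring
        have h4 : (0 : ℝ) < (i + m).factorial := by exact_mod_cast (i + m).factorial_pos
        have h5 : 2 * x ≤ (i : ℝ) + m + 1 := by
          have : (0 : ℝ) ≤ i := Nat.cast_nonneg _
          linarith
        rw [h3, Nat.factorial_succ, pow_succ, Nat.cast_mul, div_mul_div_comm, div_le_div_iff₀ (by positivity) (by positivity)]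
        push_cast
        have h6 : 0 ≤ x ^ (i + m) * (i + m).factorial := by positivity
        nlinarith
      calc _ ≤ x ^ (i + m) / ((i + m).factorial : ℝ) * (1 / 2) := h2
        _ ≤ t * (1 / 2) ^ i * (1 / 2) := by gcongr
        _ = t * (1 / 2) ^ (i + 1) := by rw [pow_succ]; ring
  have h2 : ∑' i : ℕ, x ^ (i + m) / ((i + m).factorial : ℝ) ≤ 2 * t := by
    have hg : HasSum (fun i : ℕ => t * (1 / 2 : ℝ) ^ i) (t * 2) := hasSum_geometric_two.mul_left t
    calc _ ≤ ∑' i : ℕ, t * (1 / 2 : ℝ) ^ i := ((summable_nat_add_iff m).2 hsum).tsum_le_tsum hgeo hg.summable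
      _ = t * 2 := hg.tsum_eq
      _ = 2 * t := by ring
  have ht0 : 0 ≤ t := by positivity
  nlinarith

theorem choose_lower {k q : ℕ} (hk : 1 ≤ k) (hq : 2 * q ^ 2 ≤ k) : (k : ℝ) ^ q / (2 * (q.factorial : ℝ)) ≤ (k.choose q : ℝ) := by
  have hkq : q ≤ k := by nlinarith
  have h0 : (0 : ℝ) < q.factorial := by exact_mod_cast q.factorial_pos
  have h1 : ((k + 1 - q) ^ q : ℕ) ≤ k.descFactorial q := Nat.pow_sub_le_descFactorial k q
  have h2 : (k.choose q : ℝ) * q.factorial = (k.descFactorial q : ℝ) := by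
    rw [Nat.descFactorial_eq_factorial_mul_choose]
    push_cast
    ring
  have hk0 : (0 : ℝ) < k := by exact_mod_cast hk
  have h3 : (k : ℝ) ^ q / 2 ≤ ((k + 1 - q : ℕ) : ℝ) ^ q := by
    have h4 : ((k + 1 - q : ℕ) : ℝ) = k * (1 + (-(((q : ℝ) - 1) / k))) := by
      rw [Nat.cast_sub (by omega)]
      push_cast
      field_simp
      ring
    have hq' : (q : ℝ) ≤ k := by exact_mod_cast hkq
    have h5 : (-2 : ℝ) ≤ -(((q : ℝ) - 1) / k) := by
      have : ((q : ℝ) - 1) / k ≤ 1 := by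
        rw [div_le_one hk0]
        linarith
      linarith
    have h6 := one_add_mul_le_pow h5 q
    rw [h4, mul_pow]
    have h7 : (1 : ℝ) / 2 ≤ 1 + (q : ℝ) * -(((q : ℝ) - 1) / k) := by
      have h8 : (q : ℝ) * (((q : ℝ) - 1) / k) ≤ 1 / 2 := by
        rw [← mul_div_assoc, div_le_iff₀ hk0]
        have h9 : (2 : ℝ) * (q : ℝ) ^ 2 ≤ k := by exact_mod_cast hq
        have h10 : (0 : ℝ) ≤ q := Nat.cast_nonneg _
        nlinarith
      linarith
    have h11 : (0 : ℝ) ≤ (k : ℝ) ^ q := by positivity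
    have h12 : (1 : ℝ) / 2 ≤ (1 + -(((q : ℝ) - 1) / k)) ^ q := h7.trans h6
    nlinarith
  have h4 : (k : ℝ) ^ q / 2 ≤ (k.choose q : ℝ) * q.factorial := by
    rw [h2]
    refine h3.trans ?_
    exact_mod_cast h1
  rw [div_le_iff₀ (by positivity)]
  linarith

/-- The lower bound for `a_k`. -/
theorem ak_lower {σ : ℝ} (hσ : 0 < σ) (hσ3 : σ ≤ 1 / 3) {k : ℕ} (hk : 1 ≤ k) {x : ℝ} (hx : x = 2 * σ * Real.sqrt k) :
    Real.exp (2 * x) / (2 * (2 * x + 4) ^ 2 * (x + 1)) ≤
      ∑ q ∈ range (k + 1), (4 * σ ^ 2) ^ q * (k.choose q : ℝ) / ((q + 1).factorial : ℝ) := by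
  have hx0 : 0 ≤ x := by
    rw [hx]
    positivity
  set q := ⌊x⌋₊ with hq
  have hqx : (q : ℝ) ≤ x := Nat.floor_le hx0
  have hxk : x ^ 2 = 4 * σ ^ 2 * k := by
    rw [hx, mul_pow, mul_pow, Real.sq_sqrt (Nat.cast_nonneg k)]
    ring
  have hk0 : (0 : ℝ) < k := by exact_mod_cast hk
  have hq2 : 2 * q ^ 2 ≤ k := by
    have h1 : (q : ℝ) ^ 2 ≤ x ^ 2 := pow_le_pow_left₀ (Nat.cast_nonneg _) hqx 2
    have h2 : x ^ 2 ≤ 4 / 9 * k := by
      rw [hxk]
      have : σ ^ 2 ≤ 1 / 9 := by nlinarith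
      nlinarith
    have h3 : (2 : ℝ) * (q : ℝ) ^ 2 ≤ k := by linarith
    exact_mod_cast h3
  have hqk : q ≤ k := by nlinarith
  have h1 := choose_lower hk hq2
  have hqf : (0 : ℝ) < q.factorial := by exact_mod_cast q.factorial_pos
  have h2 := exp_le_term hx0
  rw [← hq] at h2
  have hterm : Real.exp (2 * x) / (2 * (2 * x + 4) ^ 2 * (x + 1)) ≤
      (4 * σ ^ 2) ^ q * (k.choose q : ℝ) / ((q + 1).factorial : ℝ) := by
    rw [Nat.factorial_succ]
    push_cast
    have h3 : (4 * σ ^ 2) ^ q * (k : ℝ) ^ q = x ^ q * x ^ q := by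
      rw [← mul_pow, ← hxk, ← mul_pow]
      congr 1
      ring
    have h4 : x ^ q * x ^ q / (2 * q.factorial) ≤ (4 * σ ^ 2) ^ q * (k.choose q : ℝ) := by
      rw [← h3, mul_div_assoc]
      exact mul_le_mul_of_nonneg_left h1 (by positivity)
    have h5 : Real.exp (2 * x) ≤ ((2 * x + 4) * (x ^ q / (q.factorial : ℝ))) ^ 2 := by
      rw [show (2 : ℝ) * x = x + x by ring, Real.exp_add, ← sq]
      refine pow_le_pow_left₀ (Real.exp_pos _).le ?_ 2
      rw [show x + x = 2 * x by ring]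
      exact h2
    have h6 : Real.exp (2 * x) / (2 * (2 * x + 4) ^ 2 * (x + 1)) ≤ x ^ q * x ^ q / (2 * q.factorial) / ((x + 1) * q.factorial) := by
      rw [div_div, div_le_div_iff₀ (by positivity) (by positivity)]
      have h7 : ((2 * x + 4) * (x ^ q / (q.factorial : ℝ))) ^ 2 * (q.factorial : ℝ) ^ 2 = (2 * x + 4) ^ 2 * (x ^ q * x ^ q) := by
        field_simp
      have h8 : Real.exp (2 * x) * (q.factorial : ℝ) ^ 2 ≤ (2 * x + 4) ^ 2 * (x ^ q * x ^ q) := by
        rw [← h7]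
        exact mul_le_mul_of_nonneg_right h5 (by positivity)
      have h9 : 0 ≤ x + 1 := by linarith
      nlinarith [mul_le_mul_of_nonneg_right h8 h9]
    refine h6.trans ?_
    have h10 : ((q : ℝ) + 1) * q.factorial ≤ (x + 1) * q.factorial := by gcongr
    have h11 : 0 ≤ (4 * σ ^ 2) ^ q * (k.choose q : ℝ) := by positivity
    calc x ^ q * x ^ q / (2 * q.factorial) / ((x + 1) * q.factorial)
        ≤ (4 * σ ^ 2) ^ q * (k.choose q : ℝ) / ((x + 1) * q.factorial) := by gcongr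
      _ ≤ (4 * σ ^ 2) ^ q * (k.choose q : ℝ) / (((q : ℝ) + 1) * q.factorial) := by
        exact div_le_div_of_nonneg_left h11 (by positivity) h10
  refine hterm.trans ?_
  have hmem : q ∈ range (k + 1) := mem_range.2 (by omega)
  exact single_le_sum (f := fun q : ℕ => (4 * σ ^ 2) ^ q * (k.choose q : ℝ) / ((q + 1).factorial : ℝ))
    (fun i _ => by positivity) hmem

/-- `2 ln ρ ≤ ρ - 1/ρ` for `ρ ≥ 1`. -/
theorem two_log_le {ρ : ℝ} (h : 1 ≤ ρ) : 2 * Real.log ρ ≤ ρ - 1 / ρ := by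
  have h0 : 0 < ρ := by linarith
  set u := Real.log ρ with hu
  have hu0 : 0 ≤ u := Real.log_nonneg h
  have h1 : ρ = Real.exp u := (Real.exp_log h0).symm
  have h2 : 1 / ρ = Real.exp (-u) := by
    rw [Real.exp_neg, ← h1, one_div]
  rw [h2, h1]
  have h3 := Real.self_le_sinh_iff.2 hu0
  rw [Real.sinh_eq] at h3
  linarith

end PPh
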